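import Pool.Agent.H10.BurnB

/-! # Burnside's lemma: a finite simple group with a nontrivial conjugacy class of prime power size
is abelian. Proof by Wedderburn-Artin, no character theory. (helper10) -/

open scoped BigOperators

namespace H10.Burn

variable {G : Type*} [Group G] [Fintype G] {N : ℕ} {d : Fin N → ℕ}
  (e : MonoidAlgebra ℂ G ≃ₐ[ℂ] (Π i, Matrix (Fin (d i)) (Fin (d i)) ℂ))

/-- the representations -/
noncomputable def rho (i : Fin N) (g : G) : Matrix (Fin (d i)) (Fin (d i)) ℂ :=
  e (MonoidAlgebra.single g (1 : ℂ)) i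

lemma rho_one (i : Fin N) : rho e i 1 = 1 := by
  rw [rho, ← MonoidAlgebra.one_def, map_one, Pi.one_apply]

lemma rho_mul (i : Fin N) (g h : G) : rho e i (g * h) = rho e i g * rho e i h := by
  rw [rho, rho, rho, ← Pi.mul_apply, ← map_mul, MonoidAlgebra.single_mul_single, mul_one]

/-- as a homomorphism -/
noncomputable def rhoH (i : Fin N) : G →* Matrix (Fin (d i)) (Fin (d i)) ℂ where
  toFun := rho e i
  map_one' := rho_one e i
  map_mul' := rho_mul e i

lemma rho_pow (i : Fin N) (g : G) : rho e i g ^ Nat.card G = 1 := by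
  have h : (rhoH e i g) ^ Nat.card G = 1 := by rw [← map_pow, pow_card_eq_one', map_one]
  exact h

lemma sum_trace (g : G) (hg : g ≠ 1) : ∑ i, (d i : ℂ) * (rho e i g).trace = 0 := by
  have h1 := trace_mulLeft_single g hg
  have h2 := trace_mulLeft_pi d (e (MonoidAlgebra.single g (1 : ℂ)))
  rw [← h1, ← LinearMap.trace_conj' _ e.toLinearEquiv]
  refine h2.symm.trans ?_
  congr 1
  apply LinearMap.ext
  intro x
  simp [LinearEquiv.conj_apply]

lemma trace_conj (i : Fin N) (g x : G) : (rho e i (x * g * x⁻¹)).trace = (rho e i g).trace := by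
  rw [rho_mul, Matrix.trace_mul_comm, ← rho_mul, ← mul_assoc, inv_mul_cancel, one_mul]

lemma central_scalar (g : G) (i : Fin N) :
    ∃ c : ℂ, e (cs g) i = algebraMap ℂ _ c ∧ IsIntegral ℤ c := by
  classical
  by_cases hd : d i = 0
  · have hem : IsEmpty (Fin (d i)) := by rw [hd]; infer_instance
    exact ⟨0, Subsingleton.elim _ _, isIntegral_zero⟩
  have hcomm : ∀ B, B * e (cs g) i = e (cs g) i * B := by
    intro B
    have h1 := cs_comm g (e.symm (Pi.single i B))
    have h2 := congrArg e h1
    rw [map_mul, map_mul, AlgEquiv.apply_symm_apply] at h2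
    have h3 := congrFun h2 i
    simpa using h3
  obtain ⟨c, hc⟩ := scalar_of_central _ hcomm
  refine ⟨c, hc, ?_⟩
  have hne : Nonempty (Fin (d i)) := ⟨⟨0, Nat.pos_of_ne_zero hd⟩⟩
  have hint : IsIntegral ℤ (e (cs g) i) := by
    let f : MonoidAlgebra ℂ G →+* Matrix (Fin (d i)) (Fin (d i)) ℂ :=
      (Pi.evalRingHom (fun i => Matrix (Fin (d i)) (Fin (d i)) ℂ) i).comp e.toRingEquiv.toRingHom
    exact (cs_integral g).map f.toIntAlgHom
  rw [hc] at hint
  have hinj : Function.Injective (algebraMap ℂ (Matrix (Fin (d i)) (Fin (d i)) ℂ)) :=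
    (algebraMap ℂ (Matrix (Fin (d i)) (Fin (d i)) ℂ)).injective
  exact (isIntegral_algebraMap_iff hinj).1 hint

lemma central_trace (g : G) (i : Fin N) (c : ℂ) (hc : e (cs g) i = algebraMap ℂ _ c) :
    c * (d i : ℂ) = ((cl g).card : ℂ) * (rho e i g).trace := by
  classical
  have h1 : (e (cs g) i).trace = ((cl g).card : ℂ) * (rho e i g).trace := by
    rw [cs, map_sum, Finset.sum_apply, Matrix.trace_sum]
    have : ∀ x ∈ cl g, (e (MonoidAlgebra.single x (1 : ℂ)) i).trace = (rho e i g).trace := by
      intro x hx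
      obtain ⟨y, rfl⟩ := mem_cl.1 hx
      exact trace_conj e i g y
    rw [Finset.sum_congr rfl this, Finset.sum_const, nsmul_eq_mul]
  rw [← h1, hc, Matrix.algebraMap_eq_diagonal, Matrix.trace_diagonal]
  simp [mul_comm]

lemma trace_integral (g : G) (i : Fin N) : IsIntegral ℤ (rho e i g).trace := by
  rw [Matrix.trace_eq_sum_roots_charpoly]
  apply IsIntegral.multiset_sum
  intro z hz
  have h := root_pow_eq_one _ _ (rho_pow e i g) z hz
  exact ⟨Polynomial.X ^ Nat.card G - 1, by
    rw [show (1 : Polynomial ℤ) = Polynomial.C 1 by simp]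
    exact Polynomial.monic_X_pow_sub_C 1 Nat.card_pos.ne', by
      rw [Polynomial.eval₂_sub, Polynomial.eval₂_pow, Polynomial.eval₂_X, Polynomial.eval₂_one,
        h, sub_self]⟩

/-- the main alternative -/
lemma alternative (g : G) (i : Fin N) (hd : d i ≠ 0)
    (hco : Nat.Coprime (cl g).card (d i)) (h0 : (rho e i g).trace ≠ 0) :
    ∃ c : ℂ, rho e i g = algebraMap ℂ _ c := by
  obtain ⟨c, hc, hci⟩ := central_scalar e g i
  have hct := central_trace e g i c hc
  have hdc : (d i : ℂ) ≠ 0 := by exact_mod_cast hd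
  have hti := trace_integral e g i
  have hint : IsIntegral ℤ ((rho e i g).trace / (d i : ℂ)) := by
    have hb : ((cl g).card : ℤ) * Nat.gcdA (cl g).card (d i) +
        (d i : ℤ) * Nat.gcdB (cl g).card (d i) = 1 := by
      rw [← Nat.gcd_eq_gcd_ab, hco]; simp
    have hbc : ((cl g).card : ℂ) * (Nat.gcdA (cl g).card (d i) : ℂ) +
        (d i : ℂ) * (Nat.gcdB (cl g).card (d i) : ℂ) = 1 := by exact_mod_cast hb
    have heq : (rho e i g).trace / (d i : ℂ) = (Nat.gcdA (cl g).card (d i) : ℂ) * c +
        (Nat.gcdB (cl g).card (d i) : ℂ) * (rho e i g).trace := by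
      have h1 : (rho e i g).trace = (((cl g).card : ℂ) * (Nat.gcdA (cl g).card (d i) : ℂ) +
        (d i : ℂ) * (Nat.gcdB (cl g).card (d i) : ℂ)) * (rho e i g).trace := by
        rw [hbc, one_mul]
      rw [div_eq_iff hdc]
      nth_rewrite 1 [h1]
      linear_combination (-(Nat.gcdA (cl g).card (d i) : ℂ)) * hct
    rw [heq]
    exact ((isIntegral_algebraMap (x := (Nat.gcdA (cl g).card (d i)))).mul hci).add
      ((isIntegral_algebraMap (x := (Nat.gcdB (cl g).card (d i)))).mul hti)
  have hcard : Multiset.card (rho e i g).charpoly.roots = d i := by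
    have := Polynomial.splits_iff_card_roots.1 (IsAlgClosed.splits (rho e i g).charpoly)
    rw [this, Matrix.charpoly_natDegree_eq_dim, Fintype.card_fin]
  have htr := Matrix.trace_eq_sum_roots_charpoly (rho e i g)
  have hroots := eq_of_integral_average (rho e i g).charpoly.roots (Nat.card G)
    Nat.card_pos.ne' (fun z hz => root_pow_eq_one _ _ (rho_pow e i g) z hz)
    (by rw [hcard, ← htr]; exact hint) (by rw [← htr]; exact h0)
  exact ⟨_, scalar_of_roots_eq _ (Nat.card G) Nat.card_pos.ne' (rho_pow e i g) _ hroots⟩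


/-- every element of the image is a combination of the representing matrices -/
lemma comp_induction (i : Fin N) (P : Matrix (Fin (d i)) (Fin (d i)) ℂ → Prop)
    (h1 : ∀ g, P (rho e i g)) (h2 : ∀ A B, P A → P B → P (A + B))
    (h3 : ∀ (c : ℂ) A, P A → P (c • A)) : ∀ A, P A := by
  classical
  intro A
  have h4 : ∀ a : MonoidAlgebra ℂ G, P (e a i) := by
    intro a
    induction a using MonoidAlgebra.induction_on with
    | of g => exact h1 g
    | add a b ha hb => rw [map_add]; exact h2 _ _ ha hb
    | smul c a ha => rw [map_smul]; exact h3 _ _ ha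
  have h5 := h4 (e.symm (Pi.single i A))
  rwa [AlgEquiv.apply_symm_apply, Pi.single_eq_same] at h5

/-- if one nontrivial element of a simple nonabelian group acts as a scalar, all elements act
trivially -/
lemma trivial_of_scalar (hs : IsSimpleGroup G) (hna : ¬ ∀ a b : G, a * b = b * a)
    (g : G) (hg : g ≠ 1) (i : Fin N) (c : ℂ) (hc : rho e i g = algebraMap ℂ _ c) :
    ∀ x, rho e i x = 1 := by
  -- the elements commuting with all matrices
  let S : Subgroup G :=
    { carrier := {x | ∀ y, rho e i x * rho e i y = rho e i y * rho e i x}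
      one_mem' := by intro y; rw [rho_one, one_mul, mul_one]
      mul_mem' := by
        intro a b ha hb y
        rw [rho_mul, mul_assoc, hb y, ← mul_assoc, ha y, mul_assoc]
      inv_mem' := by
        intro a ha y
        have h1 : rho e i a⁻¹ * rho e i a = 1 := by rw [← rho_mul, inv_mul_cancel, rho_one]
        have h2 : rho e i a * rho e i a⁻¹ = 1 := by rw [← rho_mul, mul_inv_cancel, rho_one]
        calc rho e i a⁻¹ * rho e i y
            = rho e i a⁻¹ * rho e i y * (rho e i a * rho e i a⁻¹) := by rw [h2, mul_one]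
          _ = rho e i a⁻¹ * (rho e i y * rho e i a) * rho e i a⁻¹ := by simp only [mul_assoc]
          _ = rho e i a⁻¹ * (rho e i a * rho e i y) * rho e i a⁻¹ := by rw [ha y]
          _ = (rho e i a⁻¹ * rho e i a) * rho e i y * rho e i a⁻¹ := by simp only [mul_assoc]
          _ = _ := by rw [h1, one_mul] }
  have hSn : S.Normal := by
    constructor
    intro n hn x y
    have h2 : rho e i x * rho e i x⁻¹ = 1 := by rw [← rho_mul, mul_inv_cancel, rho_one]
    have h3 := hn (x⁻¹ * y)
    have h4 := hn x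
    calc rho e i (x * n * x⁻¹) * rho e i y
        = rho e i x * (rho e i n * rho e i (x⁻¹ * y)) := by
          simp only [rho_mul, mul_assoc]
      _ = rho e i x * (rho e i (x⁻¹ * y) * rho e i n) := by rw [h3]
      _ = (rho e i x * rho e i x⁻¹) * rho e i y * rho e i n := by simp only [rho_mul, mul_assoc]
      _ = rho e i y * rho e i n := by rw [h2, one_mul]
      _ = rho e i y * (rho e i n * (rho e i x * rho e i x⁻¹)) := by rw [h2, mul_one]
      _ = rho e i y * ((rho e i n * rho e i x) * rho e i x⁻¹) := by simp only [mul_assoc]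
      _ = rho e i y * ((rho e i x * rho e i n) * rho e i x⁻¹) := by rw [h4]
      _ = _ := by simp only [rho_mul, mul_assoc]
  have hgS : g ∈ S := by
    intro y
    rw [hc]
    exact Algebra.commutes c _
  have hSt : S = ⊤ := by
    rcases hs.eq_bot_or_eq_top_of_normal S hSn with h | h
    · rw [h, Subgroup.mem_bot] at hgS
      exact absurd hgS hg
    · exact h
  have hcomm : ∀ x y, rho e i x * rho e i y = rho e i y * rho e i x := by
    intro x
    have : x ∈ S := by rw [hSt]; exact Subgroup.mem_top x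
    exact this
  -- the kernel
  let K : Subgroup G := (rhoH e i).ker
  have hK : K = ⊤ := by
    rcases hs.eq_bot_or_eq_top_of_normal K inferInstance with h | h
    · exfalso
      apply hna
      intro a b
      have h1 : a * b * (b * a)⁻¹ ∈ K := by
        rw [MonoidHom.mem_ker, map_mul]
        have h2 : rhoH e i (a * b) = rhoH e i (b * a) := by
          rw [map_mul, map_mul]; exact hcomm a b
        rw [h2, ← map_mul, mul_inv_cancel, map_one]
      rw [h, Subgroup.mem_bot] at h1
      exact mul_inv_eq_one.1 h1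
    · exact h
  intro x
  have : x ∈ K := by rw [hK]; exact Subgroup.mem_top x
  exact this

lemma dim_one_of_trivial (i : Fin N) (hd : d i ≠ 0) (h : ∀ x, rho e i x = 1) : d i = 1 := by
  classical
  by_contra hne
  have h2 : 1 < d i := by omega
  have h3 := comp_induction e i (fun A => ∃ c : ℂ, A = algebraMap ℂ _ c)
    (fun g => ⟨1, by rw [h g, map_one]⟩)
    (fun A B ⟨a, ha⟩ ⟨b, hb⟩ => ⟨a + b, by rw [ha, hb, map_add]⟩)
    (fun c A ⟨a, ha⟩ => ⟨c * a, by rw [ha, map_mul, Algebra.smul_def]⟩)
    (Matrix.single ⟨0, by omega⟩ ⟨1, h2⟩ (1 : ℂ))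
  obtain ⟨c, hc⟩ := h3
  have h4 := congrFun (congrFun hc ⟨0, by omega⟩) ⟨1, h2⟩
  rw [Matrix.algebraMap_matrix_apply] at h4
  simp at h4

/-- there is a trivial component -/
lemma exists_trivial : ∃ i, ∀ x, rho e i x = 1 := by
  classical
  let s : MonoidAlgebra ℂ G := ∑ h : G, MonoidAlgebra.single h (1 : ℂ)
  have hs0 : s ≠ 0 := by
    intro h
    have h1 := congrArg (fun f => (MonoidAlgebra.basis G ℂ).repr f 1) h
    simp only [s, map_sum, map_zero] at h1
    rw [Finsupp.finsetSum_apply] at h1
    have h2 : ∀ x : G, ((MonoidAlgebra.basis G ℂ).repr (MonoidAlgebra.single x (1 : ℂ))) 1 =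
        if x = 1 then 1 else 0 := by
      intro x
      have : (MonoidAlgebra.single x (1 : ℂ)) = MonoidAlgebra.basis G ℂ x := by simp
      rw [this, Module.Basis.repr_self, Finsupp.single_apply]
    simp only [h2] at h1
    simp at h1
  have hgs : ∀ g : G, MonoidAlgebra.single g (1 : ℂ) * s = s := by
    intro g
    simp only [s, Finset.mul_sum, MonoidAlgebra.single_mul_single, mul_one]
    exact Fintype.sum_bijective (fun x => g * x) (Group.mulLeft_bijective g) _ _ (fun x => rfl)
  have hsg : ∀ g : G, s * MonoidAlgebra.single g (1 : ℂ) = s := by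
    intro g
    simp only [s, Finset.sum_mul, MonoidAlgebra.single_mul_single, mul_one]
    exact Fintype.sum_bijective (fun x => x * g) (Group.mulRight_bijective g) _ _ (fun x => rfl)
  have hes : e s ≠ 0 := by
    intro h
    exact hs0 (by simpa using h)
  obtain ⟨i, hi⟩ : ∃ i, e s i ≠ 0 := by
    by_contra hcon
    push Not at hcon
    exact hes (funext hcon)
  refine ⟨i, fun x => ?_⟩
  have hcomm : ∀ B, B * e s i = e s i * B := by
    apply comp_induction e i
    · intro g
      have h1 : rho e i g * e s i = e (MonoidAlgebra.single g 1 * s) i := by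
        rw [map_mul, Pi.mul_apply]; rfl
      have h2 : e s i * rho e i g = e (s * MonoidAlgebra.single g 1) i := by
        rw [map_mul, Pi.mul_apply]; rfl
      rw [h1, h2, hgs, hsg]
    · intro A B hA hB
      rw [add_mul, mul_add, hA, hB]
    · intro c A hA
      rw [smul_mul_assoc, mul_smul_comm, hA]
  obtain ⟨c, hc⟩ := scalar_of_central _ hcomm
  have hc0 : c ≠ 0 := by
    rintro rfl
    rw [map_zero] at hc
    exact hi hc
  have h1 : rho e i x * e s i = e s i := by
    have : rho e i x * e s i = e (MonoidAlgebra.single x 1 * s) i := by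
      rw [map_mul, Pi.mul_apply]; rfl
    rw [this, hgs]
  rw [hc] at h1
  have h2 : rho e i x * algebraMap ℂ _ c * algebraMap ℂ _ c⁻¹ =
      algebraMap ℂ (Matrix (Fin (d i)) (Fin (d i)) ℂ) c * algebraMap ℂ _ c⁻¹ := by rw [h1]
  rw [mul_assoc, ← map_mul, mul_inv_cancel₀ hc0, map_one, mul_one] at h2
  exact h2

/-- the trivial component is unique -/
lemma trivial_unique (i j : Fin N) (hdi : d i ≠ 0) (hdj : d j ≠ 0)
    (hi : ∀ x, rho e i x = 1) (hj : ∀ x, rho e j x = 1) : i = j := by
  classical
  by_contra hij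
  -- for every a there is a scalar acting on both components
  have h1 : ∀ a : MonoidAlgebra ℂ G, ∃ c : ℂ, e a i = algebraMap ℂ _ c ∧ e a j = algebraMap ℂ _ c := by
    intro a
    induction a using MonoidAlgebra.induction_on with
    | of g => exact ⟨1, by rw [map_one]; exact hi g, by rw [map_one]; exact hj g⟩
    | add a b ha hb =>
      obtain ⟨x, hx1, hx2⟩ := ha
      obtain ⟨y, hy1, hy2⟩ := hb
      exact ⟨x + y, by rw [map_add, Pi.add_apply, hx1, hy1, map_add],
        by rw [map_add, Pi.add_apply, hx2, hy2, map_add]⟩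
    | smul c a ha =>
      obtain ⟨x, hx1, hx2⟩ := ha
      exact ⟨c * x, by rw [map_smul, Pi.smul_apply, hx1, Algebra.smul_def, map_mul],
        by rw [map_smul, Pi.smul_apply, hx2, Algebra.smul_def, map_mul]⟩
  obtain ⟨c, hc1, hc2⟩ := h1 (e.symm (Pi.single i 1))
  rw [AlgEquiv.apply_symm_apply, Pi.single_eq_same] at hc1
  rw [AlgEquiv.apply_symm_apply, Pi.single_eq_of_ne (Ne.symm hij)] at hc2
  have hnei : Nonempty (Fin (d i)) := ⟨⟨0, Nat.pos_of_ne_zero hdi⟩⟩
  have hnej : Nonempty (Fin (d j)) := ⟨⟨0, Nat.pos_of_ne_zero hdj⟩⟩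
  have hc0 : c = 0 := by
    have := (algebraMap ℂ (Matrix (Fin (d j)) (Fin (d j)) ℂ)).injective
      (a₁ := c) (a₂ := 0) (by rw [← hc2, map_zero])
    exact this
  have hc1' : c = 1 := by
    have := (algebraMap ℂ (Matrix (Fin (d i)) (Fin (d i)) ℂ)).injective
      (a₁ := c) (a₂ := 1) (by rw [← hc1, map_one])
    exact this
  rw [hc0] at hc1'
  exact zero_ne_one hc1'

/-- **Burnside's lemma**: a finite simple group with a nontrivial element whose centralizer has
prime power index is abelian. -/
theorem burnside_class_fintype (g : G) (hg : g ≠ 1) (p n : ℕ) (hp : p.Prime)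
    (h : (Subgroup.centralizer {g}).index = p ^ n) (hs : IsSimpleGroup G) :
    ∀ a b : G, a * b = b * a := by
  classical
  by_contra hna
  obtain ⟨N, d, hd, ⟨e⟩⟩ :=
    IsSemisimpleRing.exists_algEquiv_pi_matrix_of_isAlgClosed ℂ (MonoidAlgebra ℂ G)
  have hd' : ∀ i, d i ≠ 0 := fun i => (hd i).out
  obtain ⟨i0, hi0⟩ := exists_trivial e
  have hsum := sum_trace e g hg
  have hcase : ∀ i, i ≠ i0 → ∃ w : ℂ, IsIntegral ℤ w ∧
      (d i : ℂ) * (rho e i g).trace = (p : ℂ) * w := by
    intro i hi
    by_cases hpd : p ∣ d i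
    · obtain ⟨k, hk⟩ := hpd
      refine ⟨(k : ℂ) * (rho e i g).trace, ?_, ?_⟩
      · exact ((isIntegral_algebraMap (R := ℤ) (A := ℂ) (x := (k : ℤ)))).mul
          (trace_integral e g i) |> fun h => by simpa using h
      · have hkc : (d i : ℂ) = (p : ℂ) * (k : ℂ) := by exact_mod_cast hk
        rw [hkc]; ring
    · by_cases h0 : (rho e i g).trace = 0
      · exact ⟨0, isIntegral_zero, by rw [h0]; simp⟩
      · exfalso
        have hco : Nat.Coprime (cl g).card (d i) := by
          rw [card_cl, h]
          exact Nat.Coprime.pow_left n ((Nat.Prime.coprime_iff_not_dvd hp).2 hpd)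
        obtain ⟨c, hc⟩ := alternative e g i (hd' i) hco h0
        have htriv := trivial_of_scalar e hs hna g hg i c hc
        exact hi (trivial_unique e i i0 (hd' i) (hd' i0) htriv hi0)
  choose! w hw1 hw2 using hcase
  have h1 : (d i0 : ℂ) * (rho e i0 g).trace = 1 := by
    have hd1 := dim_one_of_trivial e i0 (hd' i0) hi0
    rw [hi0 g, Matrix.trace_one, Fintype.card_fin, hd1]; norm_num
  rw [← Finset.add_sum_erase _ _ (Finset.mem_univ i0), h1,
    Finset.sum_congr rfl (fun i hi => hw2 i (Finset.ne_of_mem_erase hi)), ← Finset.mul_sum] at hsum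
  set W : ℂ := ∑ i ∈ Finset.univ.erase i0, w i with hW
  have hWi : IsIntegral ℤ W := IsIntegral.sum _ fun i hi => hw1 i (Finset.ne_of_mem_erase hi)
  have hp0 : (p : ℂ) ≠ 0 := by exact_mod_cast hp.ne_zero
  have hW2 : W = algebraMap ℚ ℂ (-1 / (p : ℚ)) := by
    have : W = -1 / (p : ℂ) := by
      rw [eq_div_iff hp0]; linear_combination hsum
    rw [this]; simp
  rw [hW2] at hWi
  have h3 : IsIntegral ℤ (-1 / (p : ℚ)) := (isIntegral_algebraMap_iff (algebraMap ℚ ℂ).injective).1 hWi
  obtain ⟨z, hz⟩ := IsIntegrallyClosed.isIntegral_iff.1 h3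
  have hpq : (p : ℚ) ≠ 0 := by exact_mod_cast hp.ne_zero
  have h4 : (z : ℚ) * p = -1 := by
    have : (z : ℚ) = -1 / p := by simpa using hz
    rw [this]; field_simp
  have h5 : z * (p : ℤ) = -1 := by exact_mod_cast h4
  have h6 : (p : ℤ) ∣ 1 := ⟨-z, by linarith [mul_comm z (p : ℤ)]⟩
  have h7 : p ∣ 1 := by exact_mod_cast h6
  exact hp.one_lt.ne' (Nat.dvd_one.1 h7)

end H10.Burn

namespace H10.Burn

/-- **Burnside's lemma** for finite groups. -/
theorem burnside_class {G : Type*} [Group G] [Finite G] (g : G) (hg : g ≠ 1) (p n : ℕ)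
    (hp : p.Prime) (h : (Subgroup.centralizer {g}).index = p ^ n) (hs : IsSimpleGroup G) :
    ∀ a b : G, a * b = b * a := by
  have := Fintype.ofFinite G
  exact burnside_class_fintype g hg p n hp h hs

end H10.Burn
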