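import Mathlib

open scoped BigOperators

namespace H10.Burn

/-- trace of left multiplication on a product of matrix algebras -/
lemma trace_mulLeft_pi {n : ℕ} (d : Fin n → ℕ) (a : Π i, Matrix (Fin (d i)) (Fin (d i)) ℂ) :
    LinearMap.trace ℂ (Π i, Matrix (Fin (d i)) (Fin (d i)) ℂ) (LinearMap.mulLeft ℂ a) =
      ∑ i, (d i : ℂ) * (a i).trace := by
  classical
  let b := Pi.basis (fun i => Matrix.stdBasis ℂ (Fin (d i)) (Fin (d i)))
  rw [LinearMap.trace_eq_matrix_trace ℂ b, Matrix.trace]
  simp only [Matrix.diag_apply, LinearMap.toMatrix_apply, LinearMap.mulLeft_apply]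
  rw [Fintype.sum_sigma]
  refine Finset.sum_congr rfl fun i _ => ?_
  rw [Fintype.sum_prod_type]
  have h1 : ∀ j k : Fin (d i), (b.repr (a * b ⟨i, (j, k)⟩)) ⟨i, (j, k)⟩ = a i j j := by
    intro j k
    simp only [b, Pi.basis_repr, Pi.basis_apply, Pi.mul_apply, Pi.single_eq_same]
    rw [Matrix.stdBasis_eq_single]
    simp [Matrix.stdBasis, Matrix.mul_apply, Matrix.single_apply]
  simp only [h1, Finset.sum_const, Finset.card_univ, Fintype.card_fin, nsmul_eq_mul]
  rw [← Finset.mul_sum, Matrix.trace]
  rfl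

/-- trace of left multiplication by a nontrivial group element on the group algebra -/
lemma trace_mulLeft_single {G : Type*} [Group G] [Fintype G] (g : G) (hg : g ≠ 1) :
    LinearMap.trace ℂ (MonoidAlgebra ℂ G)
      (LinearMap.mulLeft ℂ (MonoidAlgebra.single g (1 : ℂ))) = 0 := by
  classical
  rw [LinearMap.trace_eq_matrix_trace ℂ (MonoidAlgebra.basis G ℂ), Matrix.trace]
  refine Finset.sum_eq_zero fun x _ => ?_
  simp only [Matrix.diag_apply, LinearMap.toMatrix_apply, LinearMap.mulLeft_apply,
    MonoidAlgebra.basis_apply, MonoidAlgebra.single_mul_single, mul_one]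
  have : (MonoidAlgebra.single (g * x) (1 : ℂ)) = MonoidAlgebra.basis G ℂ (g * x) := by
    simp
  rw [this, Module.Basis.repr_self, Finsupp.single_apply, if_neg]
  intro h
  exact hg (mul_eq_right.1 h)

/-- average of roots of unity: if it is an algebraic integer and not zero, all are equal -/
lemma eq_of_integral_average (s : Multiset ℂ) (m : ℕ) (hm : m ≠ 0) (h1 : ∀ z ∈ s, z ^ m = 1)
    (hint : IsIntegral ℤ (s.sum / (Multiset.card s : ℂ))) (h0 : s.sum ≠ 0) :
    ∀ z ∈ s, z = s.sum / (Multiset.card s : ℂ) := by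
  classical
  have hcard : (Multiset.card s : ℂ) ≠ 0 := by
    intro h
    rw [Nat.cast_eq_zero, Multiset.card_eq_zero] at h
    exact h0 (by simp [h])
  have hcpos : (0 : ℝ) < (Multiset.card s : ℝ) := by
    have : Multiset.card s ≠ 0 := by
      intro h; exact hcard (by simp [h])
    positivity
  -- the number field
  let S : Set ℂ := {z : ℂ | z ^ m = 1}
  have hSfin : S.Finite := by
    have hp : (Polynomial.X ^ m - 1 : Polynomial ℂ) ≠ 0 := by
      intro h
      have := congrArg Polynomial.natDegree h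
      rw [show (1 : Polynomial ℂ) = Polynomial.C 1 by simp, Polynomial.natDegree_X_pow_sub_C] at this
      simp at this
      exact hm this
    refine (Polynomial.rootSet_finite (Polynomial.X ^ m - 1 : Polynomial ℂ) ℂ).subset ?_
    intro z hz
    rw [Polynomial.mem_rootSet]
    refine ⟨hp, ?_⟩
    simp only [S, Set.mem_ofPred_eq] at hz
    simp [hz]
  have hSint : ∀ z ∈ S, IsIntegral ℚ z := by
    intro z hz
    exact ⟨Polynomial.X ^ m - 1, by
      rw [show (1 : Polynomial ℚ) = Polynomial.C 1 by simp]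
      exact Polynomial.monic_X_pow_sub_C 1 hm, by
      simp only [S, Set.mem_ofPred_eq] at hz
      simp [hz]⟩
  let K : IntermediateField ℚ ℂ := IntermediateField.adjoin ℚ S
  have : FiniteDimensional ℚ K := by
    have : Finite S := hSfin
    exact IntermediateField.finiteDimensional_adjoin hSint
  have : NumberField K := ⟨⟩
  have hmem : ∀ z ∈ s, z ∈ K := fun z hz => IntermediateField.subset_adjoin ℚ S (h1 z hz)
  obtain ⟨t, ht⟩ : ∃ t : Multiset K, t.map (algebraMap K ℂ) = s := by
    clear hint h0 hcard hcpos h1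
    induction s using Multiset.induction_on with
    | empty => exact ⟨0, by simp⟩
    | cons a s ih =>
      obtain ⟨t, ht⟩ := ih (fun z hz => hmem z (Multiset.mem_cons_of_mem hz))
      exact ⟨⟨a, hmem a (Multiset.mem_cons_self a s)⟩ ::ₘ t, by
        rw [Multiset.map_cons, ht]; rfl⟩
  have hct : Multiset.card t = Multiset.card s := by rw [← ht, Multiset.card_map]
  let x : K := t.sum / (Multiset.card t : K)
  have hx : algebraMap K ℂ x = s.sum / (Multiset.card s : ℂ) := by
    simp only [x, map_div₀, map_natCast, hct]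
    rw [map_multiset_sum, ht]
  have hx0 : x ≠ 0 := by
    intro h
    rw [h, map_zero] at hx
    exact (div_ne_zero h0 hcard) hx.symm
  have hxi : IsIntegral ℤ x := by
    rw [← hx] at hint
    exact (isIntegral_algebraMap_iff (algebraMap K ℂ).injective).1 hint
  have hnorm : ∀ φ : K →+* ℂ, ‖φ x‖ ≤ 1 := by
    intro φ
    simp only [x, map_div₀, map_natCast, norm_div, Complex.norm_natCast]
    rw [div_le_one (by rw [hct]; exact hcpos), map_multiset_sum]
    have : ∀ u : Multiset K, (∀ z ∈ u, z ^ m = 1) →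
        ‖(u.map φ).sum‖ ≤ (Multiset.card u : ℝ) := by
      intro u
      induction u using Multiset.induction_on with
      | empty => simp
      | cons a u ih =>
        intro hu
        rw [Multiset.map_cons, Multiset.sum_cons, Multiset.card_cons]
        have h2 : ‖φ a‖ = 1 := by
          apply Complex.norm_eq_one_of_pow_eq_one (n := m) _ hm
          rw [← map_pow, hu a (Multiset.mem_cons_self a u), map_one]
        have h3 := ih (fun z hz => hu z (Multiset.mem_cons_of_mem hz))
        calc ‖φ a + (u.map φ).sum‖ ≤ ‖φ a‖ + ‖(u.map φ).sum‖ := norm_add_le _ _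
          _ ≤ 1 + (Multiset.card u : ℝ) := by rw [h2]; gcongr
          _ = _ := by push_cast; ring
    apply this
    intro z hz
    apply (algebraMap K ℂ).injective
    rw [map_pow, map_one]
    exact h1 _ (by rw [← ht]; exact Multiset.mem_map_of_mem _ hz)
  obtain ⟨k, hk, hxk⟩ := NumberField.Embeddings.pow_eq_one_of_norm_le_one K ℂ hx0 hxi hnorm
  set ζ : ℂ := s.sum / (Multiset.card s : ℂ) with hζ
  have hζk : ζ ^ k = 1 := by rw [← hx, ← map_pow, hxk, map_one]
  have hζn : ‖ζ‖ = 1 := Complex.norm_eq_one_of_pow_eq_one hζk hk.ne'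
  -- real parts
  have hre : ∀ z ∈ s, (z * (starRingEnd ℂ) ζ).re ≤ 1 := by
    intro z hz
    calc (z * (starRingEnd ℂ) ζ).re ≤ ‖z * (starRingEnd ℂ) ζ‖ := Complex.re_le_norm _
      _ = 1 := by
        rw [norm_mul, Complex.norm_conj, hζn,
          Complex.norm_eq_one_of_pow_eq_one (h1 z hz) hm, one_mul]
  have hsum : (s.map (fun z => (z * (starRingEnd ℂ) ζ).re)).sum = (Multiset.card s : ℝ) := by
    have h2' : ∀ u : Multiset ℂ, (u.map (fun z => (z * (starRingEnd ℂ) ζ).re)).sum
        = (u.sum * (starRingEnd ℂ) ζ).re := by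
      intro u
      induction u using Multiset.induction_on with
      | empty => simp
      | cons a u ih =>
        rw [Multiset.map_cons, Multiset.sum_cons, ih, Multiset.sum_cons, add_mul, Complex.add_re]
    rw [h2' s]
    have h3 : s.sum = (Multiset.card s : ℂ) * ζ := by
      rw [hζ]; field_simp
    rw [h3, mul_assoc, Complex.mul_conj, Complex.normSq_eq_norm_sq, hζn]
    simp
  have heq : ∀ z ∈ s, (z * (starRingEnd ℂ) ζ).re = 1 := by
    by_contra hcon
    push Not at hcon
    obtain ⟨z, hz, hne⟩ := hcon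
    have hlt : (z * (starRingEnd ℂ) ζ).re < 1 := lt_of_le_of_ne (hre z hz) hne
    have : (s.map (fun z => (z * (starRingEnd ℂ) ζ).re)).sum <
        (s.map (fun _ => (1 : ℝ))).sum :=
      Multiset.sum_lt_sum (fun i hi => hre i hi) ⟨z, hz, hlt⟩
    rw [hsum] at this
    simp at this
  intro z hz
  have hz1 : ‖z‖ = 1 := Complex.norm_eq_one_of_pow_eq_one (h1 z hz) hm
  have h4 : ‖z - ζ‖ ^ 2 = 0 := by
    have h5 := heq z hz
    rw [← Complex.normSq_eq_norm_sq, Complex.normSq_sub, Complex.normSq_eq_norm_sq,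
      Complex.normSq_eq_norm_sq, hz1, hζn, h5]
    norm_num
  have h6 : z - ζ = 0 := by
    rw [← norm_eq_zero]; exact pow_eq_zero_iff (two_ne_zero) |>.1 h4
  exact sub_eq_zero.1 h6

variable {d : ℕ}

/-- eigenvalues of a matrix of finite order are roots of unity -/
lemma root_pow_eq_one (A : Matrix (Fin d) (Fin d) ℂ) (m : ℕ) (hA : A ^ m = 1) (z : ℂ)
    (hz : z ∈ A.charpoly.roots) : z ^ m = 1 := by
  have h1 : Polynomial.IsRoot A.charpoly z := (Polynomial.mem_roots'.1 hz).2
  have h2 : z ∈ spectrum ℂ A := Matrix.mem_spectrum_iff_isRoot_charpoly.2 h1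
  have h3 : z ^ m ∈ spectrum ℂ (A ^ m) := spectrum.pow_mem_pow A m h2
  rw [hA] at h3
  cases isEmpty_or_nonempty (Fin d) with
  | inl h =>
    have : Subsingleton (Matrix (Fin d) (Fin d) ℂ) := inferInstance
    rw [spectrum.of_subsingleton] at h3
    exact absurd h3 (Set.notMem_empty _)
  | inr h =>
    have : Nontrivial (Matrix (Fin d) (Fin d) ℂ) := inferInstance
    rw [spectrum.one_eq] at h3
    simpa using h3

/-- a matrix of finite order with only one eigenvalue is scalar -/
lemma scalar_of_roots_eq (A : Matrix (Fin d) (Fin d) ℂ) (m : ℕ) (hm : m ≠ 0) (hA : A ^ m = 1)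
    (ζ : ℂ) (h : ∀ z ∈ A.charpoly.roots, z = ζ) : A = algebraMap ℂ _ ζ := by
  classical
  by_cases hd : d = 0
  · subst hd
    exact Subsingleton.elim _ _
  have hsplit : A.charpoly = (Polynomial.X - Polynomial.C ζ) ^ d := by
    have h1 : A.charpoly = (A.charpoly.roots.map (fun a => Polynomial.X - Polynomial.C a)).prod :=
      Polynomial.Splits.eq_prod_roots_of_monic (IsAlgClosed.splits _) A.charpoly_monic
    have h2 : A.charpoly.roots = Multiset.replicate (Multiset.card A.charpoly.roots) ζ :=
      Multiset.eq_replicate_card.2 h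
    have h3 : Multiset.card A.charpoly.roots = d := by
      have := Polynomial.splits_iff_card_roots.1 (IsAlgClosed.splits A.charpoly)
      rw [this, Matrix.charpoly_natDegree_eq_dim, Fintype.card_fin]
    rw [h3] at h2
    rw [h1, h2, Multiset.map_replicate, Multiset.prod_replicate]
  have hq1 : minpoly ℂ A ∣ (Polynomial.X - Polynomial.C ζ) ^ d := by
    rw [← hsplit]
    exact Matrix.minpoly_dvd_charpoly A
  have hq2 : minpoly ℂ A ∣ (Polynomial.X ^ m - 1) := by
    apply minpoly.dvd
    simp [hA]
  have hsq : Squarefree (minpoly ℂ A) := by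
    have : Squarefree (Polynomial.X ^ m - 1 : Polynomial ℂ) :=
      (Polynomial.X_pow_sub_one_separable_iff.2 (by exact_mod_cast hm)).squarefree
    exact this.squarefree_of_dvd hq2
  have hdv : minpoly ℂ A ∣ Polynomial.X - Polynomial.C ζ := (hsq.dvd_pow_iff_dvd hd).1 hq1
  have h5 : Polynomial.aeval A (Polynomial.X - Polynomial.C ζ) = 0 := by
    obtain ⟨q, hq⟩ := hdv
    rw [hq, map_mul, minpoly.aeval, zero_mul]
  rw [map_sub, Polynomial.aeval_X, Polynomial.aeval_C] at h5
  exact sub_eq_zero.1 h5

/-- a matrix which commutes with everything is scalar -/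
lemma scalar_of_central (A : Matrix (Fin d) (Fin d) ℂ) (h : ∀ B, B * A = A * B) :
    ∃ c : ℂ, A = algebraMap ℂ _ c := by
  classical
  have : A ∈ Set.range (Matrix.scalar (α := ℂ) (Fin d)) :=
    Matrix.mem_range_scalar_iff_commute_single'.2 fun i j => h _
  obtain ⟨c, hc⟩ := this
  exact ⟨c, by rw [← hc]; rfl⟩

end H10.Burn
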