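import Pool.Agent.H10.BurnA

open scoped BigOperators

namespace H10.Burn

variable {G : Type*} [Group G] [Fintype G]

/-- the conjugacy class as a finset -/
noncomputable def cl (g : G) : Finset G := by
  classical exact Finset.univ.image (fun x : G => x * g * x⁻¹)

lemma mem_cl {g y : G} : y ∈ cl g ↔ ∃ x : G, x * g * x⁻¹ = y := by
  classical
  simp [cl]

lemma card_cl (g : G) : (cl g).card = (Subgroup.centralizer {g}).index := by
  classical
  rw [Subgroup.index_eq_card, ← Nat.card_eq_finsetCard]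
  symm
  have key : ∀ a b : G, (QuotientGroup.mk a : G ⧸ Subgroup.centralizer {g}) = QuotientGroup.mk b ↔
      a * g * a⁻¹ = b * g * b⁻¹ := by
    intro a b
    rw [QuotientGroup.eq, Subgroup.mem_centralizer_iff]
    simp only [Set.mem_singleton_iff, forall_eq]
    constructor
    · intro h
      have h2 : b * (g * (a⁻¹ * b)) * b⁻¹ = b * ((a⁻¹ * b) * g) * b⁻¹ := by rw [h]
      have h3 : g * a⁻¹ = a⁻¹ * b * g * b⁻¹ := by
        calc g * a⁻¹ = (g * (a⁻¹ * b)) * b⁻¹ := by group
          _ = ((a⁻¹ * b) * g) * b⁻¹ := by rw [h]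
          _ = _ := by group
      calc a * g * a⁻¹ = a * (g * a⁻¹) := by group
        _ = a * (a⁻¹ * b * g * b⁻¹) := by rw [h3]
        _ = _ := by group
    · intro h
      calc g * (a⁻¹ * b) = a⁻¹ * (a * g * a⁻¹) * b := by group
        _ = a⁻¹ * (b * g * b⁻¹) * b := by rw [h]
        _ = _ := by group
  refine Nat.card_congr (Equiv.ofBijective
    (fun q : G ⧸ Subgroup.centralizer {g} => (⟨q.out * g * q.out⁻¹, mem_cl.2 ⟨q.out, rfl⟩⟩ : cl g))
    ⟨?_, ?_⟩)
  · intro q r hqr
    have h1 : q.out * g * q.out⁻¹ = r.out * g * r.out⁻¹ := congrArg Subtype.val hqr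
    have h2 := (key q.out r.out).2 h1
    rwa [QuotientGroup.out_eq', QuotientGroup.out_eq'] at h2
  · rintro ⟨y, hy⟩
    obtain ⟨x, hx⟩ := mem_cl.1 hy
    refine ⟨QuotientGroup.mk x, Subtype.ext ?_⟩
    show (QuotientGroup.mk x : G ⧸ Subgroup.centralizer {g}).out * g *
      ((QuotientGroup.mk x : G ⧸ Subgroup.centralizer {g}).out)⁻¹ = y
    rw [← hx]
    exact (key _ _).1 (QuotientGroup.out_eq' _)

/-- the class sum -/
noncomputable def cs (g : G) : MonoidAlgebra ℂ G := ∑ x ∈ cl g, MonoidAlgebra.single x (1 : ℂ)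

lemma cs_comm_single (g h : G) : MonoidAlgebra.single h (1 : ℂ) * cs g =
    cs g * MonoidAlgebra.single h (1 : ℂ) := by
  classical
  rw [cs, Finset.mul_sum, Finset.sum_mul]
  refine Finset.sum_bij (fun x _ => h * x * h⁻¹) ?_ ?_ ?_ ?_
  · intro x hx
    obtain ⟨y, hy⟩ := mem_cl.1 hx
    exact mem_cl.2 ⟨h * y, by rw [← hy]; group⟩
  · intro a _ b _ hab
    simpa using hab
  · intro b hb
    obtain ⟨y, hy⟩ := mem_cl.1 hb
    exact ⟨h⁻¹ * b * h, mem_cl.2 ⟨h⁻¹ * y, by rw [← hy]; group⟩, by group⟩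
  · intro x _
    simp [MonoidAlgebra.single_mul_single]

lemma cs_comm (g : G) (a : MonoidAlgebra ℂ G) : a * cs g = cs g * a := by
  classical
  induction a using MonoidAlgebra.induction_on with
  | of h => exact cs_comm_single g h
  | add f1 f2 h1 h2 => rw [add_mul, mul_add, h1, h2]
  | smul r f h => rw [smul_mul_assoc, mul_smul_comm, h]

lemma cs_integral (g : G) : IsIntegral ℤ (cs g) := by
  classical
  have h1 : IsIntegral ℤ (∑ x ∈ cl g, MonoidAlgebra.single x (1 : ℤ) : MonoidAlgebra ℤ G) :=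
    IsIntegral.of_finite ℤ _
  let f : MonoidAlgebra ℤ G →+* MonoidAlgebra ℂ G := MonoidAlgebra.mapRingHom G (Int.castRingHom ℂ)
  have h2 := h1.map f.toIntAlgHom
  convert h2 using 1
  rw [cs]
  change _ = f (∑ x ∈ cl g, MonoidAlgebra.single x (1 : ℤ))
  rw [map_sum]
  refine Finset.sum_congr rfl fun x _ => ?_
  simp only [f]
  rw [MonoidAlgebra.mapRingHom_single]
  simp

end H10.Burn
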