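import Pool.Agent.H40.HellLower2

/-! A lower bound for Hellinger identity testing at large distance: the alternatives concentrate
the whole mass of each of many bins in one element of the bin. -/

set_option autoImplicit false
set_option linter.unusedSectionVars false
set_option linter.unusedVariables false

open Finset

namespace Pool.Agent.H10.HellBins

open Pool.Agent.H40.Hell

variable {n : ℕ} {β : Type} [Fintype β] [DecidableEq β]

/-- mass of the bin `t` outside `L` -/
noncomputable def binMass (q : Fin n → ℝ) (L : Finset (Fin n)) (b : Fin n → β) (t : β) : ℝ :=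
  ∑ i, if i ∉ L ∧ b i = t then q i else 0

/-- probability that `i` is chosen in the bin `t` -/
noncomputable def wt (q : Fin n → ℝ) (L : Finset (Fin n)) (b : Fin n → β) (t : β)
    (i : Fin n) : ℝ :=
  if i ∉ L ∧ b i = t then q i / binMass q L b t else 0

/-- the alternative for the choice `A` -/
noncomputable def alt (q : Fin n → ℝ) (L : Finset (Fin n)) (b : Fin n → β) (A : β → Fin n)
    (i : Fin n) : ℝ :=
  if i ∈ L then q i else if A (b i) = i then binMass q L b (b i) else 0

/-- admissible choices -/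
def Adm (L : Finset (Fin n)) (b : Fin n → β) (A : β → Fin n) : Prop :=
  ∀ t, A t ∉ L ∧ b (A t) = t

lemma binMass_nonneg {q : Fin n → ℝ} (hq : ∀ i, 0 ≤ q i) (L : Finset (Fin n)) (b : Fin n → β)
    (t : β) : 0 ≤ binMass q L b t :=
  Finset.sum_nonneg fun i _ => by split_ifs <;> simp [hq]

lemma sum_binMass (q : Fin n → ℝ) (L : Finset (Fin n)) (b : Fin n → β) :
    ∑ t, binMass q L b t = ∑ i, if i ∉ L then q i else 0 := by
  unfold binMass
  rw [Finset.sum_comm]
  refine Finset.sum_congr rfl fun i _ => ?_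
  by_cases h : i ∈ L
  · simp [h]
  · simp [h]

lemma sum_binMass_le {q : Fin n → ℝ} (hq : IsDist q) (L : Finset (Fin n)) (b : Fin n → β) :
    ∑ t, binMass q L b t ≤ 1 := by
  rw [sum_binMass, ← hq.2]
  refine Finset.sum_le_sum fun i _ => ?_
  by_cases h : i ∈ L
  · simp [h, hq.1 i]
  · simp [h]

lemma sum_wt {q : Fin n → ℝ} {L : Finset (Fin n)} {b : Fin n → β} {t : β}
    (h : 0 < binMass q L b t) : ∑ i, wt q L b t i = 1 := by
  have e : ∀ i, wt q L b t i =
      (binMass q L b t)⁻¹ * (if i ∉ L ∧ b i = t then q i else 0) := by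
    intro i
    unfold wt
    split_ifs
    · rw [div_eq_inv_mul]
    · simp
  simp only [e]
  rw [← Finset.mul_sum]
  exact inv_mul_cancel₀ h.ne'

lemma wt_nonneg {q : Fin n → ℝ} (hq : ∀ i, 0 ≤ q i) (L : Finset (Fin n)) (b : Fin n → β)
    (t : β) (i : Fin n) : 0 ≤ wt q L b t i := by
  unfold wt
  split_ifs
  · exact div_nonneg (hq i) (binMass_nonneg hq L b t)
  · exact le_rfl

lemma sum_W {q : Fin n → ℝ} {L : Finset (Fin n)} {b : Fin n → β}
    (h : ∀ t, 0 < binMass q L b t) : ∑ A : β → Fin n, ∏ t, wt q L b t (A t) = 1 := by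
  have h4 := Finset.prod_univ_sum (fun _ : β => (Finset.univ : Finset (Fin n)))
    (fun t i => wt q L b t i)
  rw [Fintype.piFinset_univ] at h4
  rw [← h4]
  exact Finset.prod_eq_one fun t _ => sum_wt (h t)

/-- on samples without two points in one bin the mixture is the null distribution -/
lemma mix_good {q : Fin n → ℝ} {L : Finset (Fin n)} {b : Fin n → β}
    (h : ∀ t, 0 < binMass q L b t) {m : ℕ} (x : Fin m → Fin n)
    (hx : ∀ j j', x j ∉ L → x j' ∉ L → b (x j) = b (x j') → j = j') :
    ∑ A : β → Fin n, (∏ t, wt q L b t (A t)) * ∏ j, alt q L b A (x j) = ∏ j, q (x j) := by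
  classical
  set J' : Finset (Fin m) := Finset.univ.filter (fun j => ¬ x j ∈ L) with hJ'
  set C : ℝ := ∏ j ∈ Finset.univ.filter (fun j => x j ∈ L), q (x j) with hC
  set G : β → Fin n → ℝ := fun t i =>
    ∏ j ∈ J'.filter (fun j => b (x j) = t), (if i = x j then binMass q L b t else 0) with hG
  have e1 : ∀ A : β → Fin n, ∏ j, alt q L b A (x j) = C * ∏ t, G t (A t) := by
    intro A
    unfold alt
    rw [Finset.prod_ite, ← hC, ← hJ']
    congr 1
    rw [← Finset.prod_fiberwise J' (fun j => b (x j))]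
    refine Finset.prod_congr rfl fun t _ => ?_
    rw [hG]
    refine Finset.prod_congr rfl fun j hj => ?_
    rw [(Finset.mem_filter.1 hj).2]
  have e2 : ∀ t, ∑ i, wt q L b t i * G t i =
      ∏ j ∈ J'.filter (fun j => b (x j) = t), q (x j) := by
    intro t
    rcases Finset.eq_empty_or_nonempty (J'.filter (fun j => b (x j) = t)) with h0 | ⟨j0, hj0⟩
    · rw [h0, Finset.prod_empty]
      have : ∀ i, G t i = 1 := by
        intro i
        rw [hG]
        simp only
        rw [h0, Finset.prod_empty]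
      simp only [this, mul_one]
      exact sum_wt (h t)
    · have hs : J'.filter (fun j => b (x j) = t) = {j0} := by
        ext j
        simp only [Finset.mem_singleton]
        constructor
        · intro hj
          rw [hJ', Finset.mem_filter, Finset.mem_filter] at hj hj0
          exact hx j j0 hj.1.2 hj0.1.2 (hj.2.trans hj0.2.symm)
        · rintro rfl
          exact hj0
      rw [hs, Finset.prod_singleton]
      have : ∀ i, G t i = if i = x j0 then binMass q L b t else 0 := by
        intro i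
        rw [hG]
        simp only
        rw [hs, Finset.prod_singleton]
      simp only [this]
      rw [Finset.sum_eq_single (x j0)]
      · rw [hJ', Finset.mem_filter, Finset.mem_filter] at hj0
        rw [if_pos rfl, wt, if_pos ⟨hj0.1.2, hj0.2⟩]
        exact div_mul_cancel₀ _ (h t).ne'
      · intro i _ hi
        rw [if_neg hi, mul_zero]
      · intro hi
        exact absurd (Finset.mem_univ _) hi
  have e3 : ∑ A : β → Fin n, (∏ t, wt q L b t (A t)) * ∏ j, alt q L b A (x j) =
      C * ∑ A : β → Fin n, ∏ t, (wt q L b t (A t) * G t (A t)) := by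
    rw [Finset.mul_sum]
    refine Finset.sum_congr rfl fun A _ => ?_
    rw [e1, Finset.prod_mul_distrib]
    ring
  rw [e3]
  have h4 := Finset.prod_univ_sum (fun _ : β => (Finset.univ : Finset (Fin n)))
    (fun t i => wt q L b t i * G t i)
  rw [Fintype.piFinset_univ] at h4
  rw [← h4]
  simp only [e2]
  rw [Finset.prod_fiberwise J' (fun j => b (x j)) (fun j => q (x j)), hC, hJ']
  exact Finset.prod_filter_mul_prod_filter_not _ _ _

/-- indicator of the bin `t` -/
noncomputable def ind (L : Finset (Fin n)) (b : Fin n → β) (t : β) (i : Fin n) : ℝ :=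
  if i ∉ L ∧ b i = t then 1 else 0

/-- twice the number of pairs of sample points in one bin -/
noncomputable def coll (L : Finset (Fin n)) (b : Fin n → β) {m : ℕ} (x : Fin m → Fin n) : ℝ :=
  ∑ t, ((∑ l, ind L b t (x l)) * (∑ l, ind L b t (x l)) - ∑ l, ind L b t (x l))

lemma ind_sum_nat (L : Finset (Fin n)) (b : Fin n → β) {m : ℕ} (x : Fin m → Fin n) (t : β) :
    ∑ l, ind L b t (x l) =
      ((Finset.univ.filter (fun l => x l ∉ L ∧ b (x l) = t)).card : ℝ) := by
  unfold ind
  rw [Finset.sum_boole]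

lemma nat_term (N : ℕ) : (0 : ℝ) ≤ (N : ℝ) * N - N := by
  rcases Nat.eq_zero_or_pos N with h | h
  · simp [h]
  · have : (1 : ℝ) ≤ N := by exact_mod_cast h
    nlinarith

lemma coll_nonneg (L : Finset (Fin n)) (b : Fin n → β) {m : ℕ} (x : Fin m → Fin n) :
    0 ≤ coll L b x := by
  unfold coll
  refine Finset.sum_nonneg fun t _ => ?_
  rw [ind_sum_nat]
  exact nat_term _

lemma coll_ge {L : Finset (Fin n)} {b : Fin n → β} {m : ℕ} {x : Fin m → Fin n}
    {j j' : Fin m} (hj : x j ∉ L) (hj' : x j' ∉ L) (hb : b (x j) = b (x j')) (hne : j ≠ j') :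
    2 ≤ coll L b x := by
  unfold coll
  have h1 : (2 : ℝ) ≤ (∑ l, ind L b (b (x j)) (x l)) * (∑ l, ind L b (b (x j)) (x l)) -
      ∑ l, ind L b (b (x j)) (x l) := by
    rw [ind_sum_nat]
    have h2 : 2 ≤ (Finset.univ.filter (fun l => x l ∉ L ∧ b (x l) = b (x j))).card := by
      have h3 : ({j, j'} : Finset (Fin m)) ⊆
          Finset.univ.filter (fun l => x l ∉ L ∧ b (x l) = b (x j)) := by
        intro l hl
        rw [Finset.mem_insert, Finset.mem_singleton] at hl
        rw [Finset.mem_filter]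
        rcases hl with rfl | rfl
        · exact ⟨Finset.mem_univ _, hj, rfl⟩
        · exact ⟨Finset.mem_univ _, hj', hb.symm⟩
      have h4 := Finset.card_le_card h3
      rwa [Finset.card_pair hne] at h4
    have h5 : (2 : ℝ) ≤ ((Finset.univ.filter (fun l => x l ∉ L ∧ b (x l) = b (x j))).card : ℝ) := by
      exact_mod_cast h2
    nlinarith
  refine h1.trans ?_
  refine Finset.single_le_sum (f := fun t => (∑ l, ind L b t (x l)) * (∑ l, ind L b t (x l)) -
      ∑ l, ind L b t (x l)) (fun t _ => ?_) (Finset.mem_univ (b (x j)))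
  rw [ind_sum_nat]
  exact nat_term _

lemma sum_q_ind (q : Fin n → ℝ) (L : Finset (Fin n)) (b : Fin n → β) (t : β) :
    ∑ i, q i * ind L b t i = binMass q L b t := by
  unfold binMass ind
  exact Finset.sum_congr rfl fun i _ => by split_ifs <;> simp

lemma coll_mean {q : Fin n → ℝ} (hq : IsDist q) (L : Finset (Fin n)) (b : Fin n → β) (m : ℕ) :
    acceptProb q (fun x : Fin m → Fin n => coll L b x) =
      (m * (m - 1) : ℝ) * ∑ t, binMass q L b t ^ 2 := by
  unfold coll
  rw [acceptProb_sum, Finset.mul_sum]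
  refine Finset.sum_congr rfl fun t _ => ?_
  rw [acceptProb_sub, acceptProb_quad hq.2, acceptProb_lin hq.2]
  have e : ∀ i, ind L b t i * ind L b t i = ind L b t i := by
    intro i
    unfold ind
    split_ifs <;> simp
  simp only [e]
  rw [sum_q_ind]
  ring

lemma coll_mean_le {q : Fin n → ℝ} (hq : IsDist q) (L : Finset (Fin n)) (b : Fin n → β) (m : ℕ)
    {B : ℝ} (hB : ∀ t, binMass q L b t ≤ B) :
    acceptProb q (fun x : Fin m → Fin n => coll L b x) ≤ (m : ℝ) ^ 2 * B := by
  rw [coll_mean hq]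
  rcases Nat.eq_zero_or_pos m with h | h
  · simp [h]
  have h1 : (1 : ℝ) ≤ m := by exact_mod_cast h
  have h2 : ∑ t, binMass q L b t ^ 2 ≤ B * ∑ t, binMass q L b t := by
    rw [Finset.mul_sum]
    refine Finset.sum_le_sum fun t _ => ?_
    rw [sq]
    exact mul_le_mul_of_nonneg_right (hB t) (binMass_nonneg hq.1 L b t)
  have h3 : 0 ≤ ∑ t, binMass q L b t ^ 2 := Finset.sum_nonneg fun t _ => sq_nonneg _
  by_cases hβ : Nonempty β
  · obtain ⟨t0⟩ := hβ
    have hB0 : 0 ≤ B := (binMass_nonneg hq.1 L b t0).trans (hB t0)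
    have h4 := sum_binMass_le hq L b
    have h5 : ∑ t, binMass q L b t ^ 2 ≤ B := by
      refine h2.trans ?_
      nlinarith
    have h6 : (m * (m - 1) : ℝ) ≤ (m : ℝ) ^ 2 := by nlinarith
    have h7 : (0 : ℝ) ≤ m * (m - 1) := by nlinarith
    calc (m * (m - 1) : ℝ) * ∑ t, binMass q L b t ^ 2 ≤ (m * (m - 1) : ℝ) * B :=
          mul_le_mul_of_nonneg_left h5 h7
      _ ≤ (m : ℝ) ^ 2 * B := mul_le_mul_of_nonneg_right h6 hB0
  · exfalso
    rw [not_nonempty_iff] at hβ
    obtain ⟨i, hi⟩ : ∃ i : Fin n, True := by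
      by_contra hc
      push Not at hc
      have : ∑ i, q i = 0 := Finset.sum_eq_zero fun i _ => absurd (hc i) (by simp)
      rw [hq.2] at this
      exact one_ne_zero this
    exact hβ.elim (b i)

/-- the tester bound -/
lemma tester_bound {q : Fin n → ℝ} (hq : IsDist q) {L : Finset (Fin n)} {b : Fin n → β}
    (hpos : ∀ t, 0 < binMass q L b t) {B : ℝ} (hB : ∀ t, binMass q L b t ≤ B) {m : ℕ}
    {T : (Fin m → Fin n) → ℝ} (hT : ∀ x, 0 ≤ T x ∧ T x ≤ 1) (h1 : 2 / 3 ≤ acceptProb q T)
    (h2 : ∀ A : β → Fin n, Adm L b A → acceptProb (alt q L b A) T ≤ 1 / 3) :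
    2 / 3 ≤ (m : ℝ) ^ 2 * B := by
  classical
  have hW0 : ∀ A : β → Fin n, 0 ≤ ∏ t, wt q L b t (A t) := fun A =>
    Finset.prod_nonneg fun t _ => wt_nonneg hq.1 L b t _
  have hS : ∑ A : β → Fin n, (∏ t, wt q L b t (A t)) * acceptProb (alt q L b A) T ≤ 1 / 3 := by
    have h3 : ∀ A : β → Fin n, (∏ t, wt q L b t (A t)) * acceptProb (alt q L b A) T ≤
        (∏ t, wt q L b t (A t)) * (1 / 3) := by
      intro A
      by_cases hA : Adm L b A
      · exact mul_le_mul_of_nonneg_left (h2 A hA) (hW0 A)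
      · unfold Adm at hA
        push Not at hA
        obtain ⟨t, ht⟩ := hA
        have h0 : ∏ t, wt q L b t (A t) = 0 := by
          refine Finset.prod_eq_zero (Finset.mem_univ t) ?_
          unfold wt
          rw [if_neg]
          rintro ⟨h5, h6⟩
          exact ht h5 h6
        rw [h0, zero_mul, zero_mul]
    calc ∑ A : β → Fin n, (∏ t, wt q L b t (A t)) * acceptProb (alt q L b A) T
        ≤ ∑ A : β → Fin n, (∏ t, wt q L b t (A t)) * (1 / 3) :=
          Finset.sum_le_sum fun A _ => h3 A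
      _ = 1 / 3 := by rw [← Finset.sum_mul, sum_W hpos, one_mul]
  have hS2 : ∑ A : β → Fin n, (∏ t, wt q L b t (A t)) * acceptProb (alt q L b A) T =
      ∑ x : Fin m → Fin n,
        (∑ A : β → Fin n, (∏ t, wt q L b t (A t)) * ∏ j, alt q L b A (x j)) * T x := by
    unfold acceptProb
    simp only [Finset.mul_sum, Finset.sum_mul]
    rw [Finset.sum_comm]
    refine Finset.sum_congr rfl fun x _ => Finset.sum_congr rfl fun A _ => ?_
    ring
  have hmain : acceptProb q T -
      ∑ A : β → Fin n, (∏ t, wt q L b t (A t)) * acceptProb (alt q L b A) T ≤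
      acceptProb q (fun x : Fin m → Fin n => (1 / 2) * coll L b x) := by
    rw [hS2]
    unfold acceptProb
    rw [← Finset.sum_sub_distrib]
    refine Finset.sum_le_sum fun x _ => ?_
    have hp0 : 0 ≤ ∏ j, q (x j) := Finset.prod_nonneg fun j _ => hq.1 _
    by_cases hx : ∀ j j', x j ∉ L → x j' ∉ L → b (x j) = b (x j') → j = j'
    · rw [mix_good hpos x hx, sub_self]
      exact mul_nonneg hp0 (mul_nonneg (by norm_num) (coll_nonneg L b x))
    · push Not at hx
      obtain ⟨j, j', hj, hj', hb, hne⟩ := hx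
      have h5 := coll_ge hj hj' hb hne
      have h6 : 0 ≤ ∑ A : β → Fin n, (∏ t, wt q L b t (A t)) * ∏ j, alt q L b A (x j) := by
        refine Finset.sum_nonneg fun A _ => mul_nonneg (hW0 A) ?_
        refine Finset.prod_nonneg fun j _ => ?_
        unfold alt
        split_ifs
        · exact hq.1 _
        · exact binMass_nonneg hq.1 L b _
        · exact le_rfl
      have h7 : 0 ≤ (∑ A : β → Fin n, (∏ t, wt q L b t (A t)) *
          ∏ j, alt q L b A (x j)) * T x := mul_nonneg h6 (hT x).1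
      have h8 : (∏ j, q (x j)) * T x ≤ (∏ j, q (x j)) * (1 / 2 * coll L b x) :=
        mul_le_mul_of_nonneg_left ((hT x).2.trans (by linarith)) hp0
      linarith
  rw [acceptProb_mul_left] at hmain
  have h9 := coll_mean_le hq L b m hB
  linarith

/-- sums over an alternative -/
lemma sum_alt {L : Finset (Fin n)} {b : Fin n → β} {A : β → Fin n} (hA : Adm L b A)
    (f g : Fin n → ℝ) :
    ∑ i, (if i ∈ L then f i else if A (b i) = i then g i else 0) =
      (∑ i, if i ∈ L then f i else 0) + ∑ t, g (A t) := by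
  classical
  have h1 : ∀ i, (if i ∈ L then f i else if A (b i) = i then g i else 0) =
      (if i ∈ L then f i else 0) + ∑ t, (if i = A t then g (A t) else 0) := by
    intro i
    by_cases hi : i ∈ L
    · rw [if_pos hi, if_pos hi]
      have : ∑ t, (if i = A t then g (A t) else 0) = 0 := by
        refine Finset.sum_eq_zero fun t _ => ?_
        rw [if_neg]
        intro h
        exact (hA t).1 (h ▸ hi)
      rw [this, add_zero]
    · rw [if_neg hi, if_neg hi, zero_add]
      by_cases h2 : A (b i) = i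
      · rw [if_pos h2, Finset.sum_eq_single (b i)]
        · rw [h2, if_pos rfl]
        · intro t _ ht
          rw [if_neg]
          intro h3
          apply ht
          rw [h3]
          exact (hA t).2.symm
        · intro h3
          exact absurd (Finset.mem_univ _) h3
      · rw [if_neg h2]
        symm
        refine Finset.sum_eq_zero fun t _ => ?_
        rw [if_neg]
        intro h3
        apply h2
        rw [h3, (hA t).2]
  simp only [h1]
  rw [Finset.sum_add_distrib]
  congr 1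
  rw [Finset.sum_comm]
  refine Finset.sum_congr rfl fun t _ => ?_
  simp

lemma alt_isDist {q : Fin n → ℝ} (hq : IsDist q) {L : Finset (Fin n)} {b : Fin n → β}
    {A : β → Fin n} (hA : Adm L b A) : IsDist (alt q L b A) := by
  refine ⟨fun i => ?_, ?_⟩
  · unfold alt
    split_ifs
    · exact hq.1 _
    · exact binMass_nonneg hq.1 L b _
    · exact le_rfl
  · unfold alt
    rw [sum_alt hA q (fun i => binMass q L b (b i))]
    have h1 : ∑ t, binMass q L b (b (A t)) = ∑ t, binMass q L b t :=
      Finset.sum_congr rfl fun t _ => by rw [(hA t).2]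
    rw [h1, sum_binMass, ← Finset.sum_add_distrib, ← hq.2]
    refine Finset.sum_congr rfl fun i _ => ?_
    by_cases hi : i ∈ L <;> simp [hi]

lemma alt_affinity {q : Fin n → ℝ} (hq : IsDist q) {L : Finset (Fin n)} {b : Fin n → β}
    {A : β → Fin n} (hA : Adm L b A) {a : ℝ} (ha : 0 ≤ a)
    (hbin : ∀ i, i ∉ L → q i ≤ a ^ 2 * binMass q L b (b i)) :
    ∑ i, Real.sqrt (alt q L b A i) * Real.sqrt (q i) ≤ (∑ i ∈ L, q i) + a := by
  classical
  have e : ∀ i, Real.sqrt (alt q L b A i) * Real.sqrt (q i) =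
      (if i ∈ L then q i else if A (b i) = i then
        Real.sqrt (binMass q L b (b i)) * Real.sqrt (q i) else 0) := by
    intro i
    unfold alt
    split_ifs
    · exact Real.mul_self_sqrt (hq.1 i)
    · rfl
    · simp
  simp only [e]
  rw [sum_alt hA q (fun i => Real.sqrt (binMass q L b (b i)) * Real.sqrt (q i))]
  have h1 : (∑ i, if i ∈ L then q i else 0) = ∑ i ∈ L, q i := by simp
  rw [h1]
  have h2 : ∑ t, Real.sqrt (binMass q L b (b (A t))) * Real.sqrt (q (A t)) ≤
      ∑ t, a * binMass q L b t := by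
    refine Finset.sum_le_sum fun t _ => ?_
    rw [(hA t).2]
    have h3 := hbin (A t) (hA t).1
    rw [(hA t).2] at h3
    have h4 : Real.sqrt (q (A t)) ≤ a * Real.sqrt (binMass q L b t) := by
      have h5 := Real.sqrt_le_sqrt h3
      rw [Real.sqrt_mul (sq_nonneg a), Real.sqrt_sq ha] at h5
      exact h5
    calc Real.sqrt (binMass q L b t) * Real.sqrt (q (A t))
        ≤ Real.sqrt (binMass q L b t) * (a * Real.sqrt (binMass q L b t)) :=
          mul_le_mul_of_nonneg_left h4 (Real.sqrt_nonneg _)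
      _ = a * (Real.sqrt (binMass q L b t) * Real.sqrt (binMass q L b t)) := by ring
      _ = a * binMass q L b t := by rw [Real.mul_self_sqrt (binMass_nonneg hq.1 L b t)]
  rw [← Finset.mul_sum] at h2
  have h6 := mul_le_mul_of_nonneg_left (sum_binMass_le hq L b) ha
  linarith

/-! ### Cutting a set into bins -/

lemma greedy {q : Fin n → ℝ} {μ s : ℝ} (hs : 0 < s) (F : Finset (Fin n))
    (hμ : ∀ i ∈ F, q i ≤ μ) (hF : s ≤ ∑ i ∈ F, q i) :
    ∃ G ⊆ F, s ≤ ∑ i ∈ G, q i ∧ ∑ i ∈ G, q i ≤ s + μ := by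
  classical
  induction F using Finset.induction_on with
  | empty =>
    rw [Finset.sum_empty] at hF
    linarith
  | insert a F' ha ih =>
    by_cases h : s ≤ ∑ i ∈ F', q i
    · obtain ⟨G, hG, h1, h2⟩ := ih (fun i hi => hμ i (Finset.mem_insert_of_mem hi)) h
      exact ⟨G, hG.trans (Finset.subset_insert _ _), h1, h2⟩
    · push Not at h
      refine ⟨insert a F', subset_rfl, hF, ?_⟩
      rw [Finset.sum_insert ha]
      have := hμ a (Finset.mem_insert_self _ _)
      linarith

lemma binning {q : Fin n → ℝ} {μ s : ℝ} (hs : 0 < s) :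
    ∀ (c : ℕ) (F : Finset (Fin n)), F.card = c → (∀ i ∈ F, q i ≤ μ) → s ≤ ∑ i ∈ F, q i →
      ∃ (N : ℕ) (b : Fin n → Fin (N + 1)), ∀ t, s ≤ ∑ i ∈ F with b i = t, q i ∧
        ∑ i ∈ F with b i = t, q i ≤ 2 * s + μ := by
  classical
  intro c
  induction c using Nat.strong_induction_on with
  | _ c ih =>
    intro F hc hμ hF
    by_cases h : ∑ i ∈ F, q i ≤ 2 * s + μ
    · refine ⟨0, fun _ => 0, fun t => ?_⟩
      have e : (F.filter (fun _ => (0 : Fin 1) = t)) = F := by
        refine Finset.filter_true_of_mem fun i _ => ?_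
        exact Subsingleton.elim _ _
      rw [e]
      exact ⟨hF, h⟩
    · push Not at h
      obtain ⟨G, hG, h1, h2⟩ := greedy hs F hμ hF
      have hne : G.Nonempty := by
        rw [Finset.nonempty_iff_ne_empty]
        rintro rfl
        rw [Finset.sum_empty] at h1
        linarith
      have hcard : (F \ G).card < c := by
        rw [← hc]
        exact Finset.card_lt_card (Finset.sdiff_ssubset hG hne)
      have hsum : ∑ i ∈ F \ G, q i = ∑ i ∈ F, q i - ∑ i ∈ G, q i := by
        rw [← Finset.sum_sdiff hG]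
        ring
      obtain ⟨N, b, hb⟩ := ih _ hcard (F \ G) rfl
        (fun i hi => hμ i (Finset.sdiff_subset hi)) (by rw [hsum]; linarith)
      refine ⟨N + 1, fun i => if i ∈ G then Fin.last (N + 1) else (b i).castSucc, fun t => ?_⟩
      refine Fin.lastCases ?_ (fun t' => ?_) t
      · have e : (F.filter (fun i => (if i ∈ G then Fin.last (N + 1) else (b i).castSucc) =
            Fin.last (N + 1))) = G := by
          ext i
          rw [Finset.mem_filter]
          constructor
          · rintro ⟨_, hi⟩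
            by_contra hn
            rw [if_neg hn] at hi
            exact absurd hi (Fin.castSucc_lt_last _).ne
          · intro hi
            exact ⟨hG hi, by rw [if_pos hi]⟩
        rw [e]
        exact ⟨h1, by linarith⟩
      · have e : (F.filter (fun i => (if i ∈ G then Fin.last (N + 1) else (b i).castSucc) =
            t'.castSucc)) = (F \ G).filter (fun i => b i = t') := by
          ext i
          rw [Finset.mem_filter, Finset.mem_filter, Finset.mem_sdiff]
          constructor
          · rintro ⟨hiF, hi⟩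
            by_cases hn : i ∈ G
            · rw [if_pos hn] at hi
              exact absurd hi (Fin.castSucc_lt_last _).ne'
            · rw [if_neg hn] at hi
              exact ⟨⟨hiF, hn⟩, Fin.castSucc_injective _ hi⟩
          · rintro ⟨⟨hiF, hn⟩, hi⟩
            exact ⟨hiF, by rw [if_neg hn, hi]⟩
        rw [e]
        exact hb t'

/-! ### The lower bound for large distance -/

lemma dH_le_one {p q : Fin n → ℝ} (hp : IsDist p) (hq : IsDist q) : dH p q ^ 2 ≤ 1 := by
  have h := affinity hp hq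
  have h1 : 0 ≤ ∑ i, Real.sqrt (p i) * Real.sqrt (q i) :=
    Finset.sum_nonneg fun i _ => mul_nonneg (Real.sqrt_nonneg _) (Real.sqrt_nonneg _)
  linarith

lemma lower_large {q : Fin n → ℝ} (hq : IsDist q) {ε : ℝ} (h8 : 1 / 8 ≤ ε ^ 2)
    (h1 : ε ^ 2 < 1) (hk : 6 ≤ effSupp q (1 - (1 - ε ^ 2) ^ 8)) {m : ℕ}
    {T : (Fin m → Fin n) → ℝ} (hT : IsTester q ε T) :
    (effSupp q (1 - (1 - ε ^ 2) ^ 8) : ℝ) - 1 ≤ 18 * (m : ℝ) ^ 2 := by
  classical
  set k := effSupp q (1 - (1 - ε ^ 2) ^ 8) with hkdef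
  set d : ℝ := 1 - ε ^ 2 with hd
  have hd0 : 0 < d := by linarith
  have hd1 : d ≤ 7 / 8 := by linarith
  have hk' : (6 : ℝ) ≤ k := by exact_mod_cast hk
  have hk1 : (0 : ℝ) < (k : ℝ) - 1 := by linarith
  have hd6 : d ^ 6 ≤ 9 / 20 := by
    have := pow_le_pow_left₀ hd0.le hd1 6
    refine this.trans (by norm_num)
  have hd7 : d ^ 7 ≤ 2 / 5 := by
    have := pow_le_pow_left₀ hd0.le hd1 7
    refine this.trans (by norm_num)
  have hd8 : d ^ 8 ≤ 2 / 5 := by
    have := pow_le_pow_left₀ hd0.le hd1 8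
    refine this.trans (by norm_num)
  have hd60 : 0 < d ^ 6 := by positivity
  set μ : ℝ := d ^ 8 / ((k : ℝ) - 1) with hμ
  have hμ0 : 0 < μ := by positivity
  set L : Finset (Fin n) := Finset.univ.filter (fun i => μ < q i) with hL
  have hmin : ∀ S : Finset (Fin n), S.card < k → ∑ i ∈ S, q i < d ^ 8 := by
    intro S hS
    by_contra hc
    push Not at hc
    have := effSupp_le (q := q) (η := 1 - d ^ 8) (S := S) (by linarith)
    omega
  have hLcard : L.card < k - 1 := by
    by_contra hc
    push Not at hc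
    obtain ⟨S, hSL, hScard⟩ := Finset.exists_subset_card_eq hc
    have h2 := hmin S (by omega)
    have h3 : (k : ℝ) - 1 = (S.card : ℝ) := by
      rw [hScard]
      push_cast [Nat.cast_sub (show 1 ≤ k by omega)]
      ring
    have h4 : ∑ _i ∈ S, μ ≤ ∑ i ∈ S, q i := by
      refine Finset.sum_le_sum fun i hi => ?_
      exact (Finset.mem_filter.1 (hSL hi)).2.le
    rw [Finset.sum_const, nsmul_eq_mul, ← h3, hμ, mul_div_cancel₀ _ hk1.ne'] at h4
    linarith
  have hLmass : ∑ i ∈ L, q i < d ^ 8 := hmin L (by omega)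
  set s : ℝ := 4 * d ^ 6 / ((k : ℝ) - 1) with hs
  have hs0 : 0 < s := by positivity
  have hμs : μ = (d / 2) ^ 2 * s := by
    rw [hμ, hs]
    field_simp
    ring
  have hμles : μ ≤ s := by
    rw [hμs]
    have : (d / 2) ^ 2 ≤ 1 := by nlinarith
    nlinarith
  have hsle : s ≤ 1 / 2 := by
    rw [hs, div_le_iff₀ hk1]
    linarith
  have hcompl : ∑ i ∈ Lᶜ, q i = 1 - ∑ i ∈ L, q i := by
    have := Finset.sum_add_sum_compl L q
    rw [hq.2] at this
    linarith
  obtain ⟨N, b, hb⟩ := binning (q := q) (μ := μ) hs0 _ Lᶜ rfl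
    (fun i hi => by
      rw [Finset.mem_compl, hL, Finset.mem_filter] at hi
      push Not at hi
      exact hi (Finset.mem_univ _)) (by rw [hcompl]; linarith)
  have hbm : ∀ t, binMass q L b t = ∑ i ∈ Lᶜ with b i = t, q i := by
    intro t
    unfold binMass
    rw [← Finset.sum_filter]
    refine Finset.sum_congr ?_ fun _ _ => rfl
    ext i
    simp
  have hpos : ∀ t, 0 < binMass q L b t := by
    intro t
    rw [hbm]
    exact hs0.trans_le (hb t).1
  have hB : ∀ t, binMass q L b t ≤ 3 * s := by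
    intro t
    rw [hbm]
    have := (hb t).2
    linarith
  have hfar : ∀ A : Fin (N + 1) → Fin n, Adm L b A → acceptProb (alt q L b A) T ≤ 1 / 3 := by
    intro A hA
    have h2 := alt_affinity hq hA (a := d / 2) (by linarith) (by
      intro i hi
      rw [hL, Finset.mem_filter] at hi
      push Not at hi
      have h3 := hi (Finset.mem_univ _)
      have h4 : s ≤ binMass q L b (b i) := by
        rw [hbm]
        exact (hb _).1
      have h5 : (d / 2) ^ 2 * s ≤ (d / 2) ^ 2 * binMass q L b (b i) :=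
        mul_le_mul_of_nonneg_left h4 (sq_nonneg _)
      linarith)
    rw [affinity (alt_isDist hq hA) hq] at h2
    have h6 : d ^ 8 = d ^ 7 * d := by ring
    have h7 : d ^ 8 ≤ 2 / 5 * d := by
      rw [h6]
      exact mul_le_mul_of_nonneg_right hd7 hd0.le
    have h8 : ε ^ 2 < dH (alt q L b A) q ^ 2 := by
      rw [hd] at *
      linarith
    have h9 : ε < dH (alt q L b A) q := lt_of_pow_lt_pow_left₀ 2 (dH_nonneg _ _) h8
    have h10 := hT.2.2 _ (alt_isDist hq hA) h9
    linarith
  have hfin := tester_bound hq hpos hB hT.1 hT.2.1 hfar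
  have h11 : (m : ℝ) ^ 2 * (3 * s) = (m : ℝ) ^ 2 * (12 * d ^ 6) / ((k : ℝ) - 1) := by
    rw [hs]
    ring
  rw [h11, le_div_iff₀ hk1] at hfin
  have h12 : (m : ℝ) ^ 2 * (12 * d ^ 6) ≤ (m : ℝ) ^ 2 * 12 := by
    refine mul_le_mul_of_nonneg_left ?_ (sq_nonneg _)
    linarith
  linarith

/-- a tester needs a sample as soon as there is an alternative -/
lemma one_le_of_alt {q : Fin n → ℝ} {ε : ℝ} {m : ℕ} {T : (Fin m → Fin n) → ℝ}
    (hT : IsTester q ε T) {p : Fin n → ℝ} (hp : IsDist p) (h : ε < dH p q) : 1 ≤ m := by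
  by_contra hm
  have hm0 : m = 0 := by omega
  subst hm0
  have h1 := hT.2.1
  have h2 := hT.2.2 p hp h
  have e : acceptProb p T = acceptProb q T := by
    unfold acceptProb
    simp
  rw [e] at h2
  linarith

lemma two_le_of_alt {q : Fin n → ℝ} (hq : IsDist q) {ε : ℝ} (h0 : 0 < ε) {p : Fin n → ℝ}
    (hp : IsDist p) (h : ε < dH p q) : 2 ≤ n := by
  by_contra hn
  have hpq : p = q := by
    have h1 : n = 0 ∨ n = 1 := by omega
    rcases h1 with rfl | rfl
    · funext i
      exact i.elim0
    · funext i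
      have h2 := hp.2
      have h3 := hq.2
      rw [Fin.sum_univ_one] at h2 h3
      have : i = 0 := Subsingleton.elim _ _
      rw [this, h2, h3]
  rw [hpq] at h
  have : dH q q = 0 := by
    unfold dH
    simp
  rw [this] at h
  linarith

lemma pow8_le {x : ℝ} (h0 : 0 ≤ x) (h1 : x ≤ 1 / 8) : (1 - x) ^ 8 ≤ 1 - 4 * x := by
  have a1 : (1 - x) ^ 2 ≤ 1 - 15 / 8 * x := by nlinarith
  have a2 : (0 : ℝ) ≤ 1 - 15 / 8 * x := by linarith
  have a3 : ((1 - x) ^ 2) ^ 2 ≤ (1 - 15 / 8 * x) ^ 2 := pow_le_pow_left₀ (sq_nonneg _) a1 2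
  have a4 : (1 - 15 / 8 * x) ^ 2 ≤ 1 - 33 / 10 * x := by nlinarith
  have a5 : ((1 - x) ^ 2) ^ 2 ≤ 1 - 33 / 10 * x := a3.trans a4
  have a6 : (((1 - x) ^ 2) ^ 2) ^ 2 ≤ (1 - 33 / 10 * x) ^ 2 :=
    pow_le_pow_left₀ (sq_nonneg _) a5 2
  have a7 : (1 - 33 / 10 * x) ^ 2 ≤ 1 - 4 * x := by nlinarith
  calc (1 - x) ^ 8 = (((1 - x) ^ 2) ^ 2) ^ 2 := by ring
    _ ≤ _ := a6.trans a7

/-- the lower bound for every `ε` for which there is an alternative -/
theorem lower_all {q : Fin n → ℝ} (hq : IsDist q) {ε : ℝ} (h0 : 0 < ε)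
    (halt : ∃ p, IsDist p ∧ ε < dH p q) {m : ℕ} {T : (Fin m → Fin n) → ℝ}
    (hT : IsTester q ε T) :
    Real.sqrt (effSupp q (min (4 * ε ^ 2) (1 - (1 - ε ^ 2) ^ 8))) ≤ 4320 * (m * ε ^ 2) := by
  obtain ⟨p, hp, hfar⟩ := halt
  have hn := two_le_of_alt hq h0 hp hfar
  have hm := one_le_of_alt hT hp hfar
  have hm' : (1 : ℝ) ≤ m := by exact_mod_cast hm
  have he : ε ^ 2 < 1 := by
    have h2 := pow_lt_pow_left₀ hfar h0.le two_ne_zero
    exact h2.trans_le (dH_le_one hp hq)
  have he0 : 0 < ε ^ 2 := by positivity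
  by_cases hmin : 4 * ε ^ 2 ≤ 1 - (1 - ε ^ 2) ^ 8
  · rw [min_eq_left hmin]
    exact lower hq hn h0 hT
  · push Not at hmin
    rw [min_eq_right hmin.le]
    have h8 : 1 / 8 < ε ^ 2 := by
      by_contra hc
      push Not at hc
      have := pow8_le he0.le hc
      linarith
    have hme : (m : ℝ) / 8 ≤ m * ε ^ 2 := by nlinarith
    by_cases hk : 6 ≤ effSupp q (1 - (1 - ε ^ 2) ^ 8)
    · have h6 := lower_large hq h8.le he hk hT
      have h7 : (6 : ℝ) ≤ effSupp q (1 - (1 - ε ^ 2) ^ 8) := by exact_mod_cast hk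
      rw [Real.sqrt_le_left (by positivity)]
      have h9 : (m : ℝ) ^ 2 / 64 ≤ (m * ε ^ 2) ^ 2 := by
        have := pow_le_pow_left₀ (by positivity) hme 2
        refine le_trans (le_of_eq ?_) this
        ring
      nlinarith
    · push Not at hk
      have h7 : (effSupp q (1 - (1 - ε ^ 2) ^ 8) : ℝ) ≤ 5 := by
        have : effSupp q (1 - (1 - ε ^ 2) ^ 8) ≤ 5 := by omega
        exact_mod_cast this
      rw [Real.sqrt_le_left (by positivity)]
      have h10 : (1 : ℝ) / 8 ≤ m * ε ^ 2 := by nlinarith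
      nlinarith

lemma tester_zero {q : Fin n → ℝ} (hq : IsDist q) {ε : ℝ}
    (halt : ¬ ∃ p, IsDist p ∧ ε < dH p q) : Psi q ε = 0 := by
  have : Psi q ε ≤ 0 := by
    refine Nat.sInf_le ⟨fun _ => 1, fun _ => ⟨zero_le_one, le_rfl⟩, ?_, fun p hp h => ?_⟩
    · rw [acceptProb_one hq.2]
      norm_num
    · exact absurd ⟨p, hp, h⟩ halt
  omega

end Pool.Agent.H10.HellBins
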